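import Pool.Agent.H198.GM.Side

set_option autoImplicit false

/-! The reciprocals of the derivatives of zeta at its zeros. -/

namespace Pool.Agent.H198.GM

open Filter Topology Set MeasureTheory Complex
open Pool.Agent.W263.BSD Pool.Agent.W120.WM Pool.Agent.Y853.HM

/-- the one-sided pointwise bound -/
def OneSided (s B : ℝ) : Prop :=
  ∀ᶠ x : ℝ in atTop, s * Mx x ≤ B * (Real.sqrt x * Real.log (Real.log (Real.log x)) ^ (5 / 4 : ℝ))

theorem OneSided.ev {s B : ℝ} (h : OneSided s B) : ∀ᶠ v : ℝ in atTop, s * f v ≤ B * q v := by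
  filter_upwards [Real.tendsto_exp_atTop.eventually h] with v hv
  rw [Real.log_exp] at hv
  have h2 := mul_le_mul_of_nonneg_right hv (Real.exp_pos (-(v / 2))).le
  have e1 : Real.sqrt (Real.exp v) = Real.exp (v / 2) := by
    rw [Real.sqrt_eq_iff_mul_self_eq (Real.exp_pos _).le (Real.exp_pos _).le, ← Real.exp_add]
    congr 1
    ring
  have e2 : Real.exp (v / 2) * Real.exp (-(v / 2)) = 1 := by
    rw [← Real.exp_add, add_neg_cancel, Real.exp_zero]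
  rw [e1] at h2
  unfold f q
  calc s * (Mx (Real.exp v) * Real.exp (-(v / 2))) = s * Mx (Real.exp v) * Real.exp (-(v / 2)) := by ring
    _ ≤ B * (Real.exp (v / 2) * Real.log (Real.log v) ^ (5 / 4 : ℝ)) * Real.exp (-(v / 2)) := h2
    _ = B * Real.log (Real.log v) ^ (5 / 4 : ℝ) * (Real.exp (v / 2) * Real.exp (-(v / 2))) := by ring
    _ = _ := by rw [e2, mul_one]

theorem OneSided.lint {s B : ℝ} (hs : s = 1 ∨ s = -1) (hB : 0 < B) (h : OneSided s B) :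
    ∀ w > (1 / 2 : ℝ), LInt g w := lint_g hs (ab_bound hs hB h).1

/-- uniformly in the ordinate -/
theorem unif {s B : ℝ} (hs : s = 1 ∨ s = -1) (hB : 0 < B) (h : OneSided s B) {ε : ℝ} (hε : 0 < ε) :
    ∀ᶠ δ : ℝ in 𝓝[>] (0 : ℝ), ∀ t : ℝ, 1 ≤ |t| → δ * ‖lapC g (pt t + (δ : ℂ))‖ ≤ (B + ε) * q δ⁻¹ := by
  have hg := h.lint hs hB
  obtain ⟨v1, hv1⟩ := eventually_atTop.1 h.ev
  set v0 : ℝ := max v1 (Real.exp 1) with hv0
  have hevD : ∀ᶠ δ : ℝ in 𝓝[>] (0 : ℝ), Real.exp (Real.exp 1) ≤ δ⁻¹ := inv_top.eventually_ge_atTop _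
  have hz := (zero_lim hg).abs
  rw [abs_zero] at hz
  have hδ0 : Tendsto (fun δ : ℝ => δ) (𝓝[>] 0) (𝓝 0) := tendsto_id.mono_left nhdsWithin_le_nhds
  have hqi : Tendsto (fun δ : ℝ => (q δ⁻¹)⁻¹) (𝓝[>] 0) (𝓝 0) :=
    tendsto_inv_atTop_zero.comp (q_top.comp inv_top)
  have hη : Tendsto (fun δ : ℝ => (Real.log δ⁻¹)⁻¹) (𝓝[>] 0) (𝓝 0) :=
    tendsto_inv_atTop_zero.comp (Real.tendsto_log_atTop.comp inv_top)
  have hlim : Tendsto (fun δ : ℝ => (Real.exp (v0 / 2) + δ * Real.exp (v0 / 2) + |δ * lap g (1 / 2 + δ)|) *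
      (q δ⁻¹)⁻¹ + B * (2 * (Real.log δ⁻¹)⁻¹ + 2 * (Real.log δ⁻¹)⁻¹ ^ 2) + 5 * B * δ) (𝓝[>] 0)
      (𝓝 ((Real.exp (v0 / 2) + 0 * Real.exp (v0 / 2) + 0) * 0 + B * (2 * 0 + 2 * 0 ^ 2) + 5 * B * 0)) :=
    ((((tendsto_const_nhds.add (hδ0.mul_const _)).add hz).mul hqi).add
      (((hη.const_mul 2).add ((hη.pow 2).const_mul 2)).const_mul B)).add (hδ0.const_mul _)
  have hz0 : (Real.exp (v0 / 2) + 0 * Real.exp (v0 / 2) + 0) * 0 + B * (2 * 0 + 2 * 0 ^ 2) + 5 * B * 0 = 0 := by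
    ring
  rw [hz0] at hlim
  have h1 : ∀ᶠ δ : ℝ in 𝓝[>] (0 : ℝ), δ < 1 :=
    (eventually_lt_nhds one_pos).filter_mono nhdsWithin_le_nhds
  filter_upwards [hevD, self_mem_nhdsWithin, hlim.eventually_lt_const hε, h1] with δ h3 h4 h5 h6 t ht
  have hδ : (0 : ℝ) < δ := h4
  have h7 := sided hs hB (le_max_right _ _ : Real.exp 1 ≤ v0)
    (fun v hv => hv1 v ((le_max_left _ _).trans hv)) hδ h6.le h3 (hg _ (by linarith)) ht
  have hq := q_ge h3
  have hq0 : 0 < q δ⁻¹ := by linarith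
  have h8 := mul_lt_mul_of_pos_right h5 hq0
  rw [add_mul, add_mul, mul_assoc _ (q δ⁻¹)⁻¹, inv_mul_cancel₀ hq0.ne', mul_one] at h8
  refine h7.trans ?_
  nlinarith

theorem q_ratio : Tendsto (fun y : ℝ => q (y ^ 4) / q y) atTop (𝓝 1) := by
  have hl : Tendsto (fun y : ℝ => Real.log (Real.log y)) atTop atTop :=
    Real.tendsto_log_atTop.comp Real.tendsto_log_atTop
  have h1 : Tendsto (fun y : ℝ => (Real.log 4 * (Real.log (Real.log y))⁻¹ + 1) ^ (5 / 4 : ℝ)) atTop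
      (𝓝 ((Real.log 4 * 0 + 1) ^ (5 / 4 : ℝ))) := by
    refine Tendsto.rpow_const ?_ (Or.inr (by norm_num))
    exact ((tendsto_inv_atTop_zero.comp hl).const_mul _).add_const 1
  rw [mul_zero, zero_add, Real.one_rpow] at h1
  refine h1.congr' ?_
  filter_upwards [hl.eventually_gt_atTop 0, Real.tendsto_log_atTop.eventually_gt_atTop 0] with y hy hy1
  unfold q
  rw [Real.log_pow, Nat.cast_ofNat, Real.log_mul (by norm_num) hy1.ne', ← Real.div_rpow (by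
    have : 0 < Real.log 4 := Real.log_pos (by norm_num)
    linarith) hy.le]
  congr 1
  field_simp

theorem q_small : Tendsto (fun y : ℝ => q (y ^ 4) / y ^ 2) atTop (𝓝 0) := by
  have h0 : Tendsto (fun y : ℝ => 64 * y⁻¹) atTop (𝓝 (64 * 0)) := tendsto_inv_atTop_zero.const_mul 64
  rw [mul_zero] at h0
  refine squeeze_zero' ?_ ?_ h0
  · filter_upwards [eventually_ge_atTop (Real.exp 1), eventually_ge_atTop 1] with y hy hy1
    have h2 : Real.exp 1 ≤ y ^ 4 := hy.trans (le_self_pow₀ hy1 (by norm_num))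
    have := q_nn h2
    positivity
  · filter_upwards [eventually_ge_atTop (Real.exp 1), eventually_ge_atTop 1] with y hy hy1
    have h2 : Real.exp 1 ≤ y ^ 4 := hy.trans (le_self_pow₀ hy1 (by norm_num))
    have hy0 : 0 < y := by linarith
    have h3 := q_le_sq h2
    rw [Real.log_pow, Nat.cast_ofNat] at h3
    have h4 : Real.log y ≤ 2 * Real.sqrt y := by
      have e : Real.log y = 2 * Real.log (Real.sqrt y) := by
        rw [Real.log_sqrt hy0.le]; ring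
      have := Real.log_le_sub_one_of_pos (Real.sqrt_pos.2 hy0)
      rw [e]
      linarith
    have h5 := log_ge hy
    have h6 : Real.sqrt y ^ 2 = y := Real.sq_sqrt hy0.le
    have h7 : (4 * Real.log y) ^ 2 ≤ 64 * y := by nlinarith [Real.sqrt_nonneg y]
    rw [div_le_iff₀ (by positivity)]
    calc q (y ^ 4) ≤ _ := h3
      _ ≤ 64 * y := h7
      _ = 64 * y⁻¹ * y ^ 2 := by field_simp

theorem pt_norm (t : ℝ) : |t| ≤ ‖pt t‖ ∧ ‖pt t‖ ≤ |t| + 1 := by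
  constructor
  · have := Complex.abs_im_le_norm (pt t)
    simpa [pt] using this
  · unfold pt
    refine (norm_add_le _ _).trans ?_
    rw [norm_mul, Complex.norm_I, mul_one, Complex.norm_real, Real.norm_eq_abs]
    have : ‖(1 / 2 : ℂ)‖ = 1 / 2 := by norm_num
    rw [this]
    linarith

/-- **The reciprocals.** -/
theorem recip {s B : ℝ} (hs : s = 1 ∨ s = -1) (hB : 0 < B) (h : OneSided s B) {ε : ℝ} (hε : 0 < ε) :
    ∀ᶠ τ : ℝ in atTop, ∀ t : ℝ, |t| = τ → riemannZeta (pt t) = 0 →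
      1 ≤ (B + ε) * q τ * (‖pt t‖ * ‖deriv riemannZeta (pt t)‖) := by
  have hg := h.lint hs hB
  have hinv : Tendsto (fun τ : ℝ => (τ ^ 4)⁻¹) atTop (𝓝[>] 0) := by
    refine tendsto_nhdsWithin_iff.2 ⟨?_, ?_⟩
    · exact tendsto_inv_atTop_zero.comp (tendsto_pow_atTop (by norm_num))
    · filter_upwards [eventually_gt_atTop 0] with τ hτ
      exact mem_Ioi.2 (by positivity)
  have hu := hinv.eventually (unif hs hB h (half_pos hε))
  have hlim : Tendsto (fun τ : ℝ => (1 + τ⁻¹) * ((B + ε / 2) * ((B + ε)⁻¹ * (q (τ ^ 4) / q τ) +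
      17600 * (q (τ ^ 4) / τ ^ 2)))) atTop
      (𝓝 ((1 + 0) * ((B + ε / 2) * ((B + ε)⁻¹ * 1 + 17600 * 0)))) :=
    (tendsto_inv_atTop_zero.const_add 1).mul (((q_ratio.const_mul _).add (q_small.const_mul _)).const_mul _)
  have hlt : (1 + 0) * ((B + ε / 2) * ((B + ε)⁻¹ * 1 + 17600 * 0)) < 1 := by
    rw [add_zero, one_mul, mul_zero, add_zero, mul_one, ← div_eq_mul_inv, div_lt_one (by linarith)]
    linarith
  filter_upwards [hu, hlim.eventually_lt_const hlt, eventually_ge_atTop (3 : ℝ),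
    eventually_ge_atTop (Real.exp (Real.exp 1))] with τ h1 h2 h3 h4 t ht hz
  have hτ0 : 0 < τ := by linarith
  set δ : ℝ := (τ ^ 4)⁻¹ with hδ
  have hδ0 : 0 < δ := by positivity
  have h81 : (81 : ℝ) ≤ τ ^ 4 := by
    calc (81 : ℝ) = 3 ^ 4 := by norm_num
      _ ≤ τ ^ 4 := pow_le_pow_left₀ (by norm_num) h3 4
  have hδ1 : δ ≤ 1 / 20 := by
    rw [hδ, one_div]
    exact inv_anti₀ (by norm_num) (by linarith)
  have hL := h1 t (by rw [ht]; linarith)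
  rw [inv_inv] at hL
  have hT := taylor t hδ0.le hδ1 hz
  obtain ⟨n1, n2⟩ := pt_norm t
  rw [ht] at n1 n2
  set a : ℝ := ‖pt t‖ * ‖deriv riemannZeta (pt t)‖ with ha
  have ha0 : 0 ≤ a := by positivity
  have hq := q_ge h4
  have hq4 : 1 ≤ q (τ ^ 4) := q_ge (h4.trans (le_self_pow₀ (by linarith) (by norm_num)))
  by_contra hcon
  push Not at hcon
  have hx := congrArg norm (ext_pt hg t hδ0)
  rw [norm_mul, norm_mul] at hx
  -- sizes
  have him : τ ≤ ‖pt t + (δ : ℂ) - 1‖ := by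
    have := Complex.abs_im_le_norm (pt t + (δ : ℂ) - 1)
    simp [pt] at this
    rw [ht] at this
    simpa [pt] using this
  have hsz : ‖pt t + (δ : ℂ)‖ ≤ (1 + τ⁻¹) * ‖pt t + (δ : ℂ) - 1‖ := by
    have h5 : ‖pt t + (δ : ℂ)‖ ≤ ‖pt t + (δ : ℂ) - 1‖ + 1 := by
      calc ‖pt t + (δ : ℂ)‖ = ‖(pt t + (δ : ℂ) - 1) + 1‖ := by ring_nf
        _ ≤ _ := by
          refine (norm_add_le _ _).trans ?_
          rw [norm_one]
    have h6 : 1 ≤ τ⁻¹ * ‖pt t + (δ : ℂ) - 1‖ := by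
      rw [← inv_mul_cancel₀ hτ0.ne']
      exact mul_le_mul_of_nonneg_left him (by positivity)
    linarith
  have hN0 : 0 < ‖pt t + (δ : ℂ) - 1‖ := by linarith
  have hb2 : 1100 * (‖pt t‖ + 2) ^ 2 * δ ^ 2 ≤ 17600 * (τ ^ 2)⁻¹ * δ := by
    have h5 : (‖pt t‖ + 2) ^ 2 ≤ (2 * τ) ^ 2 * 4 := by
      have h6 : ‖pt t‖ + 2 ≤ 2 * τ * 2 := by linarith
      calc (‖pt t‖ + 2) ^ 2 ≤ (2 * τ * 2) ^ 2 := pow_le_pow_left₀ (by positivity) h6 2
        _ = _ := by ring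
    have h6 : δ * τ ^ 2 = (τ ^ 2)⁻¹ := by
      rw [hδ]
      field_simp
    calc 1100 * (‖pt t‖ + 2) ^ 2 * δ ^ 2 ≤ 1100 * ((2 * τ) ^ 2 * 4) * δ ^ 2 := by gcongr
      _ = 17600 * (δ * τ ^ 2) * δ := by ring
      _ = _ := by rw [h6]
  have hmain : δ * ‖pt t + (δ : ℂ) - 1‖ ≤ ((1 + τ⁻¹) * ‖pt t + (δ : ℂ) - 1‖) *
      (δ * a + 17600 * (τ ^ 2)⁻¹ * δ) * ((B + ε / 2) * q (τ ^ 4)) := by
    calc δ * ‖pt t + (δ : ℂ) - 1‖ = ‖pt t + (δ : ℂ)‖ * ‖riemannZeta₁ (pt t + δ)‖ * (δ * ‖lapC g (pt t + δ)‖) := by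
          rw [← hx]; ring
      _ ≤ _ := by
          gcongr
          linarith
  have hmain2 : 1 ≤ (1 + τ⁻¹) * (a + 17600 * (τ ^ 2)⁻¹) * ((B + ε / 2) * q (τ ^ 4)) := by
    have h5 : (δ * ‖pt t + (δ : ℂ) - 1‖) * 1 ≤ (δ * ‖pt t + (δ : ℂ) - 1‖) *
        ((1 + τ⁻¹) * (a + 17600 * (τ ^ 2)⁻¹) * ((B + ε / 2) * q (τ ^ 4))) := by
      rw [mul_one]
      refine hmain.trans (le_of_eq ?_)
      ring
    exact le_of_mul_le_mul_left h5 (by positivity)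
  have ha2 : a ≤ (B + ε)⁻¹ * (q τ)⁻¹ := by
    rw [← mul_inv, ← one_div, le_div_iff₀ (by positivity)]
    linarith
  have hfin : (1 + τ⁻¹) * (a + 17600 * (τ ^ 2)⁻¹) * ((B + ε / 2) * q (τ ^ 4)) ≤
      (1 + τ⁻¹) * ((B + ε / 2) * ((B + ε)⁻¹ * (q (τ ^ 4) / q τ) + 17600 * (q (τ ^ 4) / τ ^ 2))) := by
    calc _ ≤ (1 + τ⁻¹) * ((B + ε)⁻¹ * (q τ)⁻¹ + 17600 * (τ ^ 2)⁻¹) * ((B + ε / 2) * q (τ ^ 4)) := by gcongr
      _ = _ := by
        rw [div_eq_mul_inv, div_eq_mul_inv]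
        ring
  linarith

end Pool.Agent.H198.GM
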