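import Pool.Graph.R_pool_sql_team_seeded_1acbe0a2.Y853.HM.Gon1
import Pool.Graph.R_pool_sql_team_seeded_1acbe0a2.Y853.HM.Gon2
import Pool.Graph.R_seed8.W263.BSD.Euler2

set_option autoImplicit false

/-! A nonnegative kernel with one frequency, and one-sided bounds. -/

namespace Pool.Agent.H198.GM

open Filter Topology Set MeasureTheory Complex
open Pool.Agent.W263.BSD Pool.Agent.W120.WM Pool.Agent.Y853.HM

theorem pk_lapC (k : ℕ) {z : ℂ} (hz : 0 < z.re) : lapC (pk k) z = 1 / z ^ (k + 1) :=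
  pow_lapC k hz

theorem ee_exp (t w v : ℝ) : ((Real.exp (-(w * v)) : ℝ) : ℂ) * ee t v = cexp (-(((w : ℂ) + t * I) * v)) := by
  unfold ee
  rw [Complex.ofReal_exp, ← Complex.exp_add]
  congr 1
  push_cast
  ring

theorem comb {F : ℝ → ℝ} {w : ℝ} (hF : LInt F w) (t : ℝ) (u : ℂ) :
    IntegrableOn (fun v => F v * Real.exp (-(w * v)) * (1 + (u * ee t v).re)) (Ioi 0) ∧
    ∫ v in Ioi (0 : ℝ), F v * Real.exp (-(w * v)) * (1 + (u * ee t v).re) =
      lap F w + (u * lapC F ((w : ℂ) + t * I)).re := by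
  have h1 : IntegrableOn (fun v => ((F v * Real.exp (-(w * v)) : ℝ) : ℂ) * ee t v) (Ioi 0) :=
    Integrable.mul_bdd (c := 1) hF.ofReal (ee_cont t).aestronglyMeasurable
      (Eventually.of_forall fun v => (ee_norm t v).le)
  have h2 := h1.const_mul u
  have h3 : IntegrableOn (fun v => (u * (((F v * Real.exp (-(w * v)) : ℝ) : ℂ) * ee t v)).re) (Ioi 0) := h2.re
  have e : (fun v => F v * Real.exp (-(w * v)) * (1 + (u * ee t v).re)) =
      fun v => F v * Real.exp (-(w * v)) + (u * (((F v * Real.exp (-(w * v)) : ℝ) : ℂ) * ee t v)).re := by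
    funext v
    have : u * (((F v * Real.exp (-(w * v)) : ℝ) : ℂ) * ee t v) =
        ((F v * Real.exp (-(w * v)) : ℝ) : ℂ) * (u * ee t v) := by ring
    rw [this, Complex.re_ofReal_mul]
    ring
  rw [e]
  have hF' : IntegrableOn (fun v => F v * Real.exp (-(w * v))) (Ioi 0) := hF
  refine ⟨hF'.add h3, ?_⟩
  rw [integral_add hF' h3]
  have h4 : ∫ v in Ioi (0 : ℝ), (u * (((F v * Real.exp (-(w * v)) : ℝ) : ℂ) * ee t v)).re =
      (∫ v in Ioi (0 : ℝ), u * (((F v * Real.exp (-(w * v)) : ℝ) : ℂ) * ee t v)).re := integral_re h2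
  have h5 : ∫ v in Ioi (0 : ℝ), ((F v * Real.exp (-(w * v)) : ℝ) : ℂ) * ee t v =
      lapC F ((w : ℂ) + t * I) := by
    unfold lapC
    refine integral_congr_ae (Eventually.of_forall fun v => ?_)
    simp only []
    rw [← ee_exp t w v]
    push_cast
    ring
  rw [h4, integral_const_mul, h5]
  rfl

theorem weight_nonneg {u : ℂ} (hu : ‖u‖ ≤ 1) (t v : ℝ) : 0 ≤ 1 + (u * ee t v).re := by
  have h1 := Complex.abs_re_le_norm (u * ee t v)
  rw [norm_mul, ee_norm, mul_one] at h1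
  have := (abs_le.1 (h1.trans hu)).1
  linarith

/-- comparison of two functions -/
theorem compare {F G : ℝ → ℝ} {w w' : ℝ} (hF : LInt F w) (hG : LInt G w')
    (h : ∀ v, 0 < v → F v * Real.exp (-(w * v)) ≤ G v * Real.exp (-(w' * v))) (t : ℝ) {u : ℂ} (hu : ‖u‖ ≤ 1) :
    lap F w + (u * lapC F ((w : ℂ) + t * I)).re ≤ lap G w' + ‖lapC G ((w' : ℂ) + t * I)‖ := by
  obtain ⟨i1, e1⟩ := comb hF t u
  obtain ⟨i2, e2⟩ := comb hG t u
  have h1 : ∫ v in Ioi (0 : ℝ), F v * Real.exp (-(w * v)) * (1 + (u * ee t v).re) ≤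
      ∫ v in Ioi (0 : ℝ), G v * Real.exp (-(w' * v)) * (1 + (u * ee t v).re) :=
    setIntegral_mono_on i1 i2 measurableSet_Ioi fun (v : ℝ) (hv : v ∈ Ioi (0 : ℝ)) =>
      mul_le_mul_of_nonneg_right (h v (mem_Ioi.1 hv)) (weight_nonneg hu t v)
  rw [e1, e2] at h1
  have h2 : (u * lapC G ((w' : ℂ) + t * I)).re ≤ ‖lapC G ((w' : ℂ) + t * I)‖ := by
    refine (Complex.re_le_norm _).trans ?_
    rw [norm_mul]
    exact mul_le_of_le_one_left (norm_nonneg _) hu
  linarith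

end Pool.Agent.H198.GM
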