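import Pool.Agent.H198.GM.Ker

set_option autoImplicit false

/-! One-sided pointwise bounds and the Laplace transform near the critical line. -/

namespace Pool.Agent.H198.GM

open Filter Topology Set MeasureTheory Complex
open Pool.Agent.W263.BSD Pool.Agent.W120.WM Pool.Agent.Y853.HM

theorem unit_of (w : ℂ) : ∃ u : ℂ, ‖u‖ ≤ 1 ∧ (u * w).re = ‖w‖ := by
  by_cases hw : w = 0
  · exact ⟨0, by simp, by simp [hw]⟩
  · have hn : ‖w‖ ≠ 0 := norm_ne_zero_iff.2 hw
    refine ⟨(starRingEnd ℂ) w / ‖w‖, ?_, ?_⟩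
    · rw [norm_div, Complex.norm_conj, Complex.norm_real, norm_norm, div_self hn]
    · have h1 : (starRingEnd ℂ) w / ‖w‖ * w = ((‖w‖ : ℝ) : ℂ) := by
        rw [div_mul_eq_mul_div, mul_comm, Complex.mul_conj, Complex.normSq_eq_norm_sq]
        have : ((‖w‖ : ℝ) : ℂ) ≠ 0 := by exact_mod_cast hn
        field_simp
        push_cast
        ring
      rw [h1, Complex.ofReal_re]

theorem lapC_const (s : ℝ) (F : ℝ → ℝ) (z : ℂ) : lapC (fun v => s * F v) z = s * lapC F z := by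
  unfold lapC
  rw [← integral_const_mul]
  refine integral_congr_ae (Eventually.of_forall fun v => ?_)
  simp only []
  push_cast
  ring

theorem lapC_add {F G : ℝ → ℝ} (hF : Measurable F) (hG : Measurable G) {z : ℂ} (h1 : LInt F z.re)
    (h2 : LInt G z.re) : lapC (fun v => F v + G v) z = lapC F z + lapC G z := by
  have i1 := LInt.complex hF h1
  have i2 := LInt.complex hG h2
  unfold lapC
  rw [← integral_add i1 i2]
  refine integral_congr_ae (Eventually.of_forall fun v => ?_)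
  simp only []
  push_cast
  ring

theorem quad_lapC (a b c : ℝ) {z : ℂ} (hz : 0 < z.re) :
    lapC (fun v => (a * pk 0 v + b * pk 1 v) + c * pk 2 v) z = a / z + b / z ^ 2 + c / z ^ 3 := by
  have m0 := (pk_meas 0).const_mul a
  have m1 := (pk_meas 1).const_mul b
  have m2 := (pk_meas 2).const_mul c
  have i0 := (pk_LInt 0 hz).const_mul a
  have i1 := (pk_LInt 1 hz).const_mul b
  have i2 := (pk_LInt 2 hz).const_mul c
  have e1 := lapC_add (F := fun v => a * pk 0 v + b * pk 1 v) (G := fun v => c * pk 2 v) (z := z)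
    (m0.add m1) m2 (i0.add i1) i2
  have e2 := lapC_add (F := fun v => a * pk 0 v) (G := fun v => b * pk 1 v) (z := z) m0 m1 i0 i1
  rw [lapC_const, lapC_const, pk_lapC 0 hz, pk_lapC 1 hz] at e2
  rw [e2, lapC_const, pk_lapC 2 hz] at e1
  rw [e1]
  ring

theorem s_abs {s : ℝ} (hs : s = 1 ∨ s = -1) : |s| = 1 := by rcases hs with rfl | rfl <;> simp

/-- the Laplace transform near the critical line under a one-sided pointwise bound -/
theorem sided {s B : ℝ} (hs : s = 1 ∨ s = -1) (hB : 0 < B) {v0 : ℝ} (hv0 : Real.exp 1 ≤ v0)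
    (h : ∀ v, v0 ≤ v → s * f v ≤ B * q v) {δ : ℝ} (hδ : 0 < δ) (hδ1 : δ ≤ 1)
    (hD : Real.exp (Real.exp 1) ≤ δ⁻¹) (hg : LInt g (1 / 2 + δ)) {t : ℝ} (ht : 1 ≤ |t|) :
    δ * ‖lapC g (pt t + δ)‖ ≤ Real.exp (v0 / 2) +
      B * q δ⁻¹ * (1 + 2 * (Real.log δ⁻¹)⁻¹ + 2 * (Real.log δ⁻¹)⁻¹ ^ 2) +
      δ * (Real.exp (v0 / 2) + 5 * (B * q δ⁻¹)) + |δ * lap g (1 / 2 + δ)| := by
  set D : ℝ := δ⁻¹ with hDd
  set η : ℝ := (Real.log D)⁻¹ with hη
  set K : ℝ := Real.exp (v0 / 2) with hK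
  have hK0 : 0 < K := Real.exp_pos _
  have hq := q_ge hD
  have hL : 1 ≤ Real.log D := log_ge (exp_le.trans hD)
  have hη0 : 0 ≤ η := by positivity
  have hη1 : η ≤ 1 := inv_le_one_of_one_le₀ hL
  have hvd : ∀ v : ℝ, v / D = δ * v := fun v => by rw [hDd, div_inv_eq_mul, mul_comm]
  have hBq : 0 ≤ B * q D := by positivity
  obtain ⟨Ψ, hΨ⟩ : ∃ Ψ : ℝ → ℝ, Ψ = fun v => ((K + B * q D) * pk 0 v + (2 * B * q D * η * δ) * pk 1 v) +
      (2 * B * q D * η ^ 2 * δ ^ 2) * pk 2 v := ⟨_, rfl⟩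
  have hΨv : ∀ v, Ψ v = K + B * (q D * (1 + η * (v / D)) ^ 2) := by
    intro v
    rw [hΨ, hvd]
    simp only [pk, pow_zero, Nat.factorial_zero, Nat.cast_one, div_one, mul_one, pow_one, Nat.factorial_one,
      Nat.factorial_two, Nat.cast_ofNat]
    ring
  have hbound : ∀ v : ℝ, 0 < v → s * f v ≤ Ψ v := by
    intro v hv
    rw [hΨv]
    have h1 : 0 ≤ B * (q D * (1 + η * (v / D)) ^ 2) := by positivity
    rcases le_total v v0 with h2 | h2
    · have h3 := f_le hs v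
      have h4 : Real.exp (v / 2) ≤ K := Real.exp_le_exp.2 (by linarith)
      have h5 := le_max_left (s * f v) 0
      linarith
    · have h3 := h v h2
      have h4 := mul_le_mul_of_nonneg_left (q_key hD (hv0.trans h2)) hB.le
      linarith
  have hi0 := (pk_LInt 0 hδ).const_mul (K + B * q D)
  have hi1 := (pk_LInt 1 hδ).const_mul (2 * B * q D * η * δ)
  have hi2 := (pk_LInt 2 hδ).const_mul (2 * B * q D * η ^ 2 * δ ^ 2)
  have hΨi : LInt Ψ δ := by
    rw [hΨ]
    exact (hi0.add hi1).add hi2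
  have hΨl : lap Ψ δ = (K + B * q D) * (1 / δ ^ (0 + 1)) + (2 * B * q D * η * δ) * (1 / δ ^ (1 + 1)) +
      (2 * B * q D * η ^ 2 * δ ^ 2) * (1 / δ ^ (2 + 1)) := by
    rw [hΨ]
    have e1 := lap_add (hi0.add hi1) hi2
    have e2 := lap_add hi0 hi1
    rw [lap_const_mul, pk_lap 2 hδ] at e1
    rw [lap_const_mul, lap_const_mul, pk_lap 0 hδ, pk_lap 1 hδ] at e2
    rw [e2] at e1
    exact e1
  -- the complex Laplace transform of the majorant
  have hΨc : ‖lapC Ψ ((δ : ℂ) + t * I)‖ ≤ K + 5 * (B * q D) := by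
    have hre : ((δ : ℂ) + t * I).re = δ := by simp
    have him : ((δ : ℂ) + t * I).im = t := by simp
    have hn : 1 ≤ ‖(δ : ℂ) + t * I‖ := by
      have := Complex.abs_im_le_norm ((δ : ℂ) + t * I)
      rw [him] at this
      linarith
    rw [hΨ, quad_lapC _ _ _ (by rw [hre]; exact hδ)]
    set z : ℂ := (δ : ℂ) + t * I with hz
    have hinv : ∀ (a : ℝ) (k : ℕ), 0 ≤ a → ‖(a : ℂ) / z ^ k‖ ≤ a := by
      intro a k ha
      rw [norm_div, norm_pow, Complex.norm_of_nonneg ha]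
      exact div_le_self ha (one_le_pow₀ hn)
    have j0 := hinv (K + B * q D) 1 (by positivity)
    have j1 := hinv (2 * B * q D * η * δ) 2 (by positivity)
    have j2 := hinv (2 * B * q D * η ^ 2 * δ ^ 2) 3 (by positivity)
    rw [pow_one] at j0
    have k1 : 2 * B * q D * η * δ ≤ 2 * (B * q D) := by
      have : η * δ ≤ 1 := mul_le_one₀ hη1 hδ.le hδ1
      nlinarith
    have k2 : 2 * B * q D * η ^ 2 * δ ^ 2 ≤ 2 * (B * q D) := by
      have : η ^ 2 * δ ^ 2 ≤ 1 := mul_le_one₀ (pow_le_one₀ hη0 hη1) (by positivity) (pow_le_one₀ hδ.le hδ1)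
      nlinarith
    calc _ ≤ ‖((K + B * q D : ℝ) : ℂ) / z‖ + ‖((2 * B * q D * η * δ : ℝ) : ℂ) / z ^ 2‖ +
          ‖((2 * B * q D * η ^ 2 * δ ^ 2 : ℝ) : ℂ) / z ^ 3‖ := norm_add₃_le
      _ ≤ (K + B * q D) + 2 * B * q D * η * δ + 2 * B * q D * η ^ 2 * δ ^ 2 := by linarith
      _ ≤ _ := by linarith
  -- comparison
  obtain ⟨u, hu, hu2⟩ := unit_of (lapC (fun v => s * g v) (((1 / 2 + δ : ℝ) : ℂ) + t * I))
  have hcmp := compare (F := fun v => s * g v) (G := Ψ) (hg.const_mul s) hΨi (fun v hv => by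
    have h1 : s * g v * Real.exp (-((1 / 2 + δ) * v)) = s * f v * Real.exp (-(δ * v)) := by
      unfold f g
      rw [mul_assoc, mul_assoc, mul_assoc, ← Real.exp_add]
      congr 3
      ring
    show s * g v * Real.exp (-((1 / 2 + δ) * v)) ≤ Ψ v * Real.exp (-(δ * v))
    rw [h1]
    exact mul_le_mul_of_nonneg_right (hbound v hv) (Real.exp_pos _).le) t hu
  rw [hu2, lapC_const, lap_const_mul, norm_mul, Complex.norm_real, Real.norm_eq_abs, s_abs hs, one_mul] at hcmp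
  have hpt : (((1 / 2 + δ : ℝ) : ℂ) + t * I) = pt t + δ := by
    unfold pt
    push_cast
    ring
  rw [hpt, hΨl] at hcmp
  have h3 := mul_le_mul_of_nonneg_left hcmp hδ.le
  have h4 := mul_le_mul_of_nonneg_left hΨc hδ.le
  have h5 : -(δ * (s * lap g (1 / 2 + δ))) ≤ |δ * lap g (1 / 2 + δ)| := by
    have e : δ * (s * lap g (1 / 2 + δ)) = s * (δ * lap g (1 / 2 + δ)) := by ring
    rw [e]
    refine (neg_le_abs _).trans (le_of_eq ?_)
    rw [abs_mul, s_abs hs, one_mul]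
  have h6 : δ * ((K + B * q D) * (1 / δ ^ (0 + 1)) + (2 * B * q D * η * δ) * (1 / δ ^ (1 + 1)) +
      (2 * B * q D * η ^ 2 * δ ^ 2) * (1 / δ ^ (2 + 1))) = K + B * q D * (1 + 2 * η + 2 * η ^ 2) := by
    field_simp
    ring
  rw [mul_add, mul_add, h6] at h3
  linarith

end Pool.Agent.H198.GM
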