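import Pool.Agent.H198.GM.Fin

set_option autoImplicit false

/-! The zeros are simple and on the line. -/

namespace Pool.Agent.H198.GM

open Filter Topology Set MeasureTheory Complex
open Pool.Agent.W263.BSD Pool.Agent.W120.WM Pool.Agent.Y853.HM

theorem inv4 : Tendsto (fun τ : ℝ => (τ ^ 4)⁻¹) atTop (𝓝[>] 0) := by
  refine tendsto_nhdsWithin_iff.2 ⟨?_, ?_⟩
  · exact tendsto_inv_atTop_zero.comp (tendsto_pow_atTop (by norm_num))
  · filter_upwards [eventually_gt_atTop 0] with τ hτ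
    exact mem_Ioi.2 (by positivity)

theorem N_bound {s B : ℝ} (hs : s = 1 ∨ s = -1) (hB : 0 < B) (h : OneSided s B) :
    ∀ᶠ δ : ℝ in 𝓝[>] (0 : ℝ), N δ ≤ 2 * ((B + 1) * q δ⁻¹) + 1 := by
  have hab := ab_bound hs hB h
  have hz := (zero_lim (h.lint hs hB)).abs
  rw [abs_zero] at hz
  filter_upwards [hab.2 1 one_pos, hz.eventually_lt_const one_pos, self_mem_nhdsWithin] with δ h1 h2 h3
  have hδ : (0 : ℝ) < δ := h3
  obtain ⟨h5, h6⟩ := ab_add hs hab.1 hδ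
  have h7 : |s * (δ * lap g (1 / 2 + δ))| < 1 := by
    rw [abs_mul, s_abs hs, one_mul]
    exact h2
  have h8 := (abs_lt.1 h7).1
  rw [h5, h6]
  linarith

theorem simple_all {s B : ℝ} (hs : s = 1 ∨ s = -1) (hB : 0 < B) (h : OneSided s B) (t : ℝ)
    (hz : riemannZeta (pt t) = 0) : deriv riemannZeta (pt t) ≠ 0 := by
  intro hd
  have hg := h.lint hs hB
  have hN := inv4.eventually (N_bound hs hB h)
  have hδ0 : Tendsto (fun τ : ℝ => (τ ^ 4)⁻¹) atTop (𝓝 0) := inv4.mono_right nhdsWithin_le_nhds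
  set C : ℝ := 1100 * (‖pt t‖ + 2) ^ 2 with hC
  have hC0 : 0 < C := by positivity
  have hlim : Tendsto (fun τ : ℝ => (‖pt t‖ + 1) * (C * (2 * ((B + 1) * (q (τ ^ 4) / τ ^ 2)) + (τ ^ 4)⁻¹))) atTop
      (𝓝 ((‖pt t‖ + 1) * (C * (2 * ((B + 1) * 0) + 0)))) :=
    (((((q_small.const_mul _).const_mul _).add hδ0)).const_mul _).const_mul _
  have hz0 : (‖pt t‖ + 1) * (C * (2 * ((B + 1) * 0) + 0)) = 0 := by ring
  rw [hz0] at hlim
  obtain ⟨τ, h1, h2, h3, h4⟩ := (hN.and ((hlim.eventually_lt_const (show (0 : ℝ) < 1 / 4 by norm_num)).and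
    ((eventually_ge_atTop (3 : ℝ)).and (eventually_ge_atTop (Real.exp 1))))).exists
  have hτ0 : 0 < τ := by linarith
  set δ : ℝ := (τ ^ 4)⁻¹ with hδ
  have hδp : 0 < δ := by positivity
  have h81 : (81 : ℝ) ≤ τ ^ 4 := by
    calc (81 : ℝ) = 3 ^ 4 := by norm_num
      _ ≤ τ ^ 4 := pow_le_pow_left₀ (by norm_num) h3 4
  have hδ1 : δ ≤ 1 / 20 := by
    rw [hδ, one_div]
    exact inv_anti₀ (by norm_num) (by linarith)
  have hT := taylor t hδp.le hδ1 hz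
  rw [hd, norm_zero, mul_zero, mul_zero, zero_add, ← hC] at hT
  have hF := fund hg t hδp
  rw [inv_inv] at h1
  have hNn : 0 ≤ N δ := by
    unfold N
    exact mul_nonneg hδp.le (lap_nonneg (fun _ _ => abs_nonneg _) _)
  have hs1 : ‖pt t + (δ : ℂ)‖ ≤ ‖pt t‖ + 1 := by
    refine (norm_add_le _ _).trans ?_
    rw [Complex.norm_of_nonneg hδp.le]
    linarith
  have hs2 : 1 / 4 ≤ ‖pt t + (δ : ℂ) - 1‖ := by
    have h5 := Complex.abs_re_le_norm (pt t + (δ : ℂ) - 1)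
    have h6 : (pt t + (δ : ℂ) - 1).re = δ - 1 / 2 := by
      rw [Complex.sub_re, Complex.add_re, pt_re, Complex.ofReal_re, Complex.one_re]
      ring
    rw [h6] at h5
    have := neg_abs_le (δ - 1 / 2)
    linarith
  have hq4 : 0 ≤ q (τ ^ 4) := q_nn (h4.trans (le_self_pow₀ (by linarith) (by norm_num)))
  have hm : ‖pt t + (δ : ℂ) - 1‖ * δ ≤ ((‖pt t‖ + 1) * (C * (2 * ((B + 1) * (q (τ ^ 4) / τ ^ 2)) + δ))) * δ := by
    refine hF.trans ?_
    have h5 : δ * N δ ≤ 2 * ((B + 1) * (q (τ ^ 4) / τ ^ 2)) + δ := by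
      have h6 : δ * q (τ ^ 4) ≤ q (τ ^ 4) / τ ^ 2 := by
        rw [hδ, div_eq_mul_inv, mul_comm]
        refine mul_le_mul_of_nonneg_left ?_ hq4
        exact inv_anti₀ (by positivity) (pow_le_pow_right₀ (by linarith) (by norm_num))
      have h7 := mul_le_mul_of_nonneg_left h1 hδp.le
      have h8 := mul_le_mul_of_nonneg_left h6 (show 0 ≤ B + 1 by linarith)
      nlinarith
    calc ‖pt t + (δ : ℂ)‖ * ‖riemannZeta₁ (pt t + δ)‖ * N δ ≤ (‖pt t‖ + 1) * (C * δ ^ 2) * N δ := by gcongr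
      _ = (‖pt t‖ + 1) * (C * (δ * N δ)) * δ := by ring
      _ ≤ _ := by gcongr
  have hm2 := le_of_mul_le_mul_right hm hδp
  linarith

end Pool.Agent.H198.GM
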